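import Pool.Agent.H207.TP.Stm

/-!
# Project TP, job SPH: the polynomial map on the sphere in the coordinate `1 / (z - b)` (helper686)
-/

set_option autoImplicit false

open Polynomial
open scoped OnePoint

namespace Pool.Agent.H686.TP207

open Pool.Agent.H207.TP Pool.Agent.H792R2.CE Pool.Agent.Helper114.Herman

/-- the point with the coordinates `1 : (y - b)` -/
theorem pr_Mh (b y : ℂ) : pr 1 (y - b) = Mh b y := by
  unfold Mh M
  by_cases h : y = b
  · rw [if_pos h, h, sub_self]
    simp [pr]
  · rw [if_neg h, pr_ne (sub_ne_zero.2 h), one_div]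

/-- **SPH** -/
theorem t_SPH (h : S_REV) : S_SPH := by
  intro d b T hd hT
  have hF : (T - C b).natDegree ≤ d := by
    refine (natDegree_sub_le _ _).trans ?_
    rw [natDegree_C, hT]
    exact (max_le le_rfl (by omega))
  obtain ⟨-, h2, h3, h4, -⟩ := h d b (T - C b) hF
  have h2' : ∀ z : ℂ, z ≠ b → (DQ d b T).eval (M b z) = M b z ^ d * (T.eval z - b) := by
    intro z hz
    have h5 := h2 z hz
    rw [eval_sub, eval_C] at h5
    exact h5
  have h4' : (DQ d b T).coeff d = T.eval b - b := by
    rw [eval_sub, eval_C] at h4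
    exact h4
  have h3' : (DQ d b T).eval 0 ≠ 0 := by
    have h5 : (DQ d b T).eval 0 = T.coeff d := by
      rw [coeff_sub, coeff_C, if_neg (by omega), sub_zero] at h3
      exact h3
    rw [h5, ← hT]
    intro h6
    have h7 : T = 0 := leadingCoeff_eq_zero.1 h6
    rw [h7, natDegree_zero] at hT
    omega
  refine ⟨fun z => ?_, ?_, ?_⟩
  · rw [← pr_Mh b (T.eval z)]
    by_cases hz : z = b
    · subst hz
      have h5 : Mh z z = OnePoint.infty := if_pos rfl
      rw [h5, sph_infty, h4', coeff_X_pow, if_pos rfl]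
    · have h5 : Mh b z = ((M b z : ℂ) : OnePoint ℂ) := if_neg hz
      have h6 : M b z ^ d ≠ 0 := pow_ne_zero d (inv_ne_zero (sub_ne_zero.2 hz))
      rw [h5, sph_coe, h2' z hz, eval_pow, eval_X]
      have h7 := Pool.Agent.Helper114.Konig.pr_smul (u := 1) (v := T.eval z - b) h6
      rw [mul_one] at h7
      exact h7
  · rw [sph_coe, pr_ne h3', eval_pow, eval_X, zero_pow (by omega), zero_div]
  · have h5 : HasDerivAt (fun z : ℂ => (X ^ d : ℂ[X]).eval z / (DQ d b T).eval z)
        (((derivative (X ^ d : ℂ[X])).eval 0 * (DQ d b T).eval 0 -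
          (X ^ d : ℂ[X]).eval 0 * (derivative (DQ d b T)).eval 0) / (DQ d b T).eval 0 ^ 2) 0 :=
      ((X ^ d : ℂ[X]).hasDerivAt 0).div ((DQ d b T).hasDerivAt 0) h3'
    have h6 : (X ^ d : ℂ[X]).eval 0 = 0 := by
      rw [eval_pow, eval_X, zero_pow (by omega)]
    have h7 : (derivative (X ^ d : ℂ[X])).eval 0 = 0 := by
      rw [derivative_X_pow, eval_mul, eval_C, eval_pow, eval_X, zero_pow (by omega), mul_zero]
    rw [h6, h7, zero_mul, zero_mul, sub_zero, zero_div] at h5
    exact h5.deriv

end Pool.Agent.H686.TP207
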